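import Pool.Agent.H78HS.Disp2

/-!
# The Hilbert-Smith conjecture: displacement and distortion

Let `n ≥ 2` and let `X` be a metric space in which the points with a neighbourhood bi-Lipschitz
equivalent to an open subset of `ℝⁿ` form a dense connected set (for example an Alexandrov space
of dimension `n`). Let a locally compact group `G` act faithfully and continuously on `X`, and let
`V` be a neighbourhood of `1`. If `G` is not a Lie group then there are a prime number `p` and an
element `g` generating a `p`-adic group in `V` with the following property at all regular points
of the closure `Z` of the set of the points of infinite orbit: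

for every neighbourhood `W` there are `c` and `ε > 0` such that for all large `k` and all `r < ε` for
which the powers of `g^(p^k)` move the points of `W ∩ Z` by at most `r`, one of the iterates `g^a`,
`a < p^k`, has a large distortion on `W ∩ Z` at the scale `r`: there are `r`-separated points `x_i`
and pairs `y_i, z_i` at distance at most `c r` from `x_i` with `r ∑ d(g^a y_i, g^a z_i)^(n + 1) > ε`. In
particular the images of pairs at distance at most `2 c r` cannot all have distance at most `C r^α`,
`α > (n - 1) / (n + 1)`.

So the displacement of the powers of `g^(p^k)` bounds from below the distortion of the first `p^k`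
iterates of `g`, at every scale bigger than this displacement. Nothing is assumed about the
regularity of any element: a single element may have arbitrarily bad modulus of continuity at
small scales. The known theorems of this kind assume bounds for all elements of the group at all
small scales (Lipschitz or Hölder conditions, or Sobolev classes); then Baire's theorem gives uniform
bounds for an open subset of the group, and the distortions are bounded while the displacement
tends to zero.

Proof (files in `Pool/Agent/H78HS/`). All elements of a small subgroup `K` generated by a power of `g`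
are at distance at most `r` from the iterates `g^a`, `a < p^k`, so that the energies with exponent
`n + 1` of all elements of `K` at the scales `r = r_j` are uniformly `o(1/r_j)` on `Z`. Hence for almost
all `y` almost all level sets, on the part in `Z` of the fibre over `y` of the average `F` of `K`, of a
countable separating family of averaged functions are totally disconnected. On such a fibre local
eigenfunctions of a generator can be glued to a function without zeros, because invariant
functions without zeros on totally disconnected sets have invariant logarithms. This contradicts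
the circle criterion of the starting library (`CircleFibres`), unless an open subgroup acts
trivially near the point. So there are no infinite orbits in the regular set; the rest follows
from Newman's theorem as in the starting library.
-/

set_option autoImplicit false

namespace Pool.Agent.Results.MP_afaf30_gt.DisplacementDistortion

open Set Metric Filter Topology

/-- The points in the domain of a bi-Lipschitz chart with values in Euclidean `n`-space. -/
def Reg (n : ℕ) (X : Type) [MetricSpace X] : Set X :=
  {x | ∃ φ : OpenPartialHomeomorph X (EuclideanSpace ℝ (Fin n)),
    (∃ L : ℝ, ∀ a ∈ φ.source, ∀ b ∈ φ.source,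
      dist (φ a) (φ b) ≤ L * dist a b ∧ dist a b ≤ L * dist (φ a) (φ b)) ∧ x ∈ φ.source}

/-- The set of the points of infinite orbit: no positive power of `g` fixes the point. -/
def InfiniteOrbits {G : Type} (X : Type) [Monoid G] [MulAction G X] (g : G) : Set X :=
  {x | ∀ m : ℕ, 0 < m → g ^ m • x ≠ x}

/-- On `Y` the powers of `h` move the points by at most `r`. -/
def DisplacementLE {G X : Type} [MetricSpace X] [Group G] [MulAction G X] (h : G) (Y : Set X)
    (r : ℝ) : Prop :=
  ∀ q ∈ Subgroup.zpowers h, ∀ x ∈ Y, dist (q • x) x ≤ r

/-- The energy of `f` on `Y` at the scale `r`, with exponent `n + 1` and balls of radius `c r`, is at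
most `b`: the sum of `d(f(y_x), f(z_x))^(n + 1)` over an `r`-separated finite set of points `x` of `Y` is
at most `b`, for all points `y_x`, `z_x` of `Y` at distance at most `c r` from `x`. -/
def EnergyLE {X : Type} [MetricSpace X] (n c : ℕ) (f : X → X) (Y : Set X) (r b : ℝ) : Prop :=
  ∀ (A : Finset X) (y z : X → X),
    (∀ x ∈ A, x ∈ Y ∧ y x ∈ Y ∧ z x ∈ Y ∧ dist (y x) x ≤ c * r ∧ dist (z x) x ≤ c * r) →
    (∀ x ∈ A, ∀ x' ∈ A, x ≠ x' → r ≤ dist x x') →
    ∑ x ∈ A, dist (f (y x)) (f (z x)) ^ (n + 1) ≤ b

/-- Small distortion at `x₀`: in a neighbourhood `W` of `x₀`, for all `c` and `ε > 0` there are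
arbitrarily large `k` and scales `r < ε` such that, on the part of `W` in the closure of the set of the
points of infinite orbit, the powers of `g^(p^k)` move the points by at most `r` and the iterates
`g^a`, `a < p^k`, have energies at most `ε / r` at the scale `r`. -/
def SmallDistortion (n p : ℕ) {G X : Type} [MetricSpace X] [Group G] [MulAction G X] (g : G)
    (x₀ : X) : Prop :=
  ∃ W ∈ 𝓝 x₀, ∀ (c : ℕ) (ε : ℝ), 0 < ε → ∃ᶠ k : ℕ in atTop, ∃ r : ℝ, 0 < r ∧ r < ε ∧
    DisplacementLE (g ^ p ^ k) (W ∩ closure (InfiniteOrbits X g)) r ∧
    ∀ a < p ^ k, EnergyLE n c (fun x : X => g ^ a • x) (W ∩ closure (InfiniteOrbits X g)) r (ε / r)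

/-- The powers of `g` have compact closure contained in `V`. -/
def SmallPowers {G : Type} [Group G] [TopologicalSpace G] (V : Set G) (g : G) : Prop :=
  IsCompact (closure (Subgroup.zpowers g : Set G)) ∧ closure (Subgroup.zpowers g : Set G) ⊆ V

/-- If all small `p`-adic elements `g` with regular points of infinite orbit have small distortion at
some regular point of the closure of the set of these points, then the group is a Lie group. -/
theorem result :
    ∀ (n : ℕ), 2 ≤ n → ∀ (X : Type) [MetricSpace X],
      Dense (Reg n X) → IsPreconnected (Reg n X) →
      ∀ (G : Type) [Group G] [TopologicalSpace G] [IsTopologicalGroup G] [LocallyCompactSpace G]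
        [MulAction G X] [ContinuousSMul G X] [FaithfulSMul G X], ∀ V ∈ 𝓝 (1 : G),
        (∀ (p : ℕ) (g : G), p.Prime → SmallPowers V g →
          Tendsto (fun j : ℕ => g ^ p ^ j) atTop (𝓝 1) →
          (∃ x ∈ Reg n X, x ∈ InfiniteOrbits X g) →
          ∃ x ∈ Reg n X, x ∈ closure (InfiniteOrbits X g) ∧ SmallDistortion n p g x) →
        ∃ (m : ℕ) (_ : ChartedSpace (EuclideanSpace ℝ (Fin m)) G),
          LieGroup (modelWithCornersSelf ℝ (EuclideanSpace ℝ (Fin m)))
            ((⊤ : ℕ∞) : WithTop ℕ∞) G := by
  intro n hn X _ hd hc G _ _ _ _ _ _ _ V hV hreg
  refine Pool.Agent.H78HS.lie_disp (by omega) hd hc hV fun p g hp hg hgp hgx => ?_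
  obtain ⟨x, hx, hxZ, W, hW, hWH⟩ := hreg p g hp hg hgp hgx
  refine ⟨x, hx, hxZ, W, hW, fun c ε hε => (hWH c ε hε).mono ?_⟩
  rintro k ⟨r, hr0, hr1, hr2, hr3⟩
  refine ⟨r, hr0, hr1, hr2, fun a ha A y z h1 h2 => ?_⟩
  have h3 := hr3 a ha A y z h1 h2
  rwa [le_div_iff₀ hr0, mul_comm] at h3

end Pool.Agent.Results.MP_afaf30_gt.DisplacementDistortion
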