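import Pool.Agent.H78HS.Lie

/-!
# The Hilbert-Smith conjecture for Hölder exponents bigger than `(n - 1) / (n + 1)`

Let `n ≥ 2` and let `X` be a metric space in which the points with a neighbourhood bi-Lipschitz
equivalent to an open subset of `ℝⁿ` form a dense connected set (for example an Alexandrov space
of dimension `n`). Let a locally compact group `G` act faithfully and continuously on `X`, and let
`V` be a neighbourhood of `1`. Suppose that every `g` in `G` whose powers have compact closure
contained in `V` has a power `h = g^M`, `M ≠ 0`, which satisfies a regularity condition at the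
regular points of infinite orbit, outside a countable union of closed sets each of which is totally
disconnected or tame. A set is tame if its complement is locally dense with finitely many local
components; closed sets which do not separate locally (for instance those of dimension at most
`n - 2`, or with vanishing `(n - 1)`-dimensional Hausdorff measure), hypersurfaces and polyhedra of
positive codimension are tame. The condition at `x` is that `h` is near `x` of fractional
Sobolev-Hajlasz class `M^{s,q}`, with `s > (n - 1) / (n + 1)` and `s q > n - 1`, or has small images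
of balls near `x`, or that `h` is Hölder at the single point `x` with some exponent bigger than
`(n - 1) / (n + 1)`, tested only against points of infinite orbit. All data depend on the element
and on the point in an arbitrary way. Then `G` is a Lie group.

In particular this holds if the small elements are locally Hölder with exponents bigger than
`(n - 1) / (n + 1)`. The known bound for Hölder actions is `n / (n + 2)`; it comes from the theorem of
Yang on the dimension of orbit spaces.

Proof (files in `Pool/Agent/H78HS/`, which use `Pool/Agent/N512/` and `Pool/Agent/R775/`). It is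
enough to treat a compact totally disconnected group and an element `g` with `g^(p^j) → 1`. Let
`K` be the closure of its powers.
(1) Let `F` be the average of `K` in a small chart, and let `ρ` be the average of one of countably
many functions `max(0, s - |v - w|)`. The energies with exponent `n + 1` of `F` and `ρ` are small, so
`(F, ρ)` maps almost every coordinate hyperplane to a null set of `ℝⁿ × ℝ`. By Fubini's theorem, for
almost all `y` almost all level sets of all functions `ρ` on the fibre of `F` over `y` are totally
disconnected.
(2) So the orbit space of the fibre has dimension at most one, and the local eigenfunctions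
`Ψ(gx) = exp(2πi/p) Ψ(x)`, which exist near all points of the fibre, can be glued: the quotient of
two eigenfunctions is an invariant function without zeros on a totally disconnected set, it has an
invariant logarithm, which extends.
(3) This contradicts the circle criterion of the starting library (`CircleFibres`) unless `g` is
trivial near `0`.
(4) The global part is done with the closure `Z` of the set of the points of infinite orbit as in
the starting file `InfiniteOrbits`. New is that `Z` is not locally contained in a tame set:
otherwise the finitely many components of the complement consist of points of finite orbit, by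
Newman's theorem a power of `g` fixes each of them, hence an open set which meets `Z`.
-/

set_option autoImplicit false

namespace Pool.Agent.Results.MP_afaf30_gt.FractionalSobolev

open MeasureTheory Set Metric Filter Topology
open scoped ENNReal

/-- The points in the domain of a bi-Lipschitz chart with values in Euclidean `n`-space. -/
def Reg (n : ℕ) (X : Type) [MetricSpace X] : Set X :=
  {x | ∃ φ : OpenPartialHomeomorph X (EuclideanSpace ℝ (Fin n)),
    (∃ L : ℝ, ∀ a ∈ φ.source, ∀ b ∈ φ.source,
      dist (φ a) (φ b) ≤ L * dist a b ∧ dist a b ≤ L * dist (φ a) (φ b)) ∧ x ∈ φ.source}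

/-- Near `x` the map `f` is of fractional Sobolev class `M^{s,q}` in the form of Hajlasz, for some
`s > (n - 1) / (n + 1)` and some `q` with `s q > n - 1`: in a neighbourhood
`d(fa, fb) ≤ d(a, b)^s (h(a) + h(b))`, and `h^q` has finite integral for the `n`-dimensional
Hausdorff measure. -/
def SobolevNear (n : ℕ) {X : Type} [MetricSpace X] [MeasurableSpace X] [BorelSpace X]
    (f : X → X) (x : X) : Prop :=
  ∃ W ∈ 𝓝 x, ∃ s q : ℝ, ((n : ℝ) - 1) / (n + 1) < s ∧ (n : ℝ) - 1 < s * q ∧
    ∃ h : X → ℝ≥0∞, Measurable h ∧
    (∀ a ∈ W, ∀ b ∈ W, edist (f a) (f b) ≤ edist a b ^ s * (h a + h b)) ∧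
    ∫⁻ a in W, h a ^ q ∂(Measure.hausdorffMeasure (n : ℝ)) < ∞

/-- For a compact neighbourhood `W` of `x` the sum of `diam (f (B(a, c r) ∩ W))^(n + 1)` over
`r`-separated points `a` of `W` is at most `N r^{-1 + 1/N}`, for some `N` depending on `c`. -/
def SmallImagesNear (n : ℕ) {X : Type} [MetricSpace X] (f : X → X) (x : X) : Prop :=
  ∃ W ∈ 𝓝 x, IsCompact W ∧ ∀ c : ℕ, ∃ N : ℕ, ∀ r : ℝ, 0 < r → r ≤ 1 → ∀ A : Finset X,
    (∀ a ∈ A, a ∈ W) → (∀ a ∈ A, ∀ b ∈ A, a ≠ b → r ≤ dist a b) →
    ∑ a ∈ A, Metric.diam (f '' (closedBall a (c * r) ∩ W)) ^ (n + 1) ≤
      N * r ^ (1 / (N : ℝ) - 1)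

/-- No positive power of `g` fixes `x`, that is, the orbit of `x` under the powers of `g` is
infinite. -/
def InfiniteOrbit {G X : Type} [Monoid G] [MulAction G X] (g : G) (x : X) : Prop :=
  ∀ m : ℕ, 0 < m → g ^ m • x ≠ x

/-- The element `g` is Hölder at the point `x` with some exponent `α > (n - 1) / (n + 1)`, tested
against the points of infinite orbit: `d(gy, gx) ≤ C d(y, x)^α` for the points `y` of infinite orbit
with `d(y, x) < δ`. -/
def HolderAt (n : ℕ) {G X : Type} [MetricSpace X] [Monoid G] [MulAction G X] (g : G) (x : X) :
    Prop :=
  ∃ α C δ : ℝ, ((n : ℝ) - 1) / (n + 1) < α ∧ 0 < δ ∧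
    ∀ y, InfiniteOrbit g y → dist y x < δ → dist (g • y) (g • x) ≤ C * dist y x ^ α

/-- The complement of `T` is locally dense with finitely many components: every regular point has
arbitrarily small open neighbourhoods `W` such that `W \ T` is dense in `W` and is a union of
finitely many connected sets. -/
def Tame (n : ℕ) (X : Type) [MetricSpace X] (T : Set X) : Prop :=
  ∀ x ∈ Reg n X, ∀ U ∈ 𝓝 x, ∃ W ⊆ U, IsOpen W ∧ x ∈ W ∧ W ⊆ closure (W \ T) ∧
    ∃ (m : ℕ) (C : Fin m → Set X), (∀ i, IsPreconnected (C i)) ∧ W \ T = ⋃ i, C i

/-- There are countably many closed sets, each of them totally disconnected or tame, such that the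
regularity condition holds at all regular points of infinite orbit outside these sets. -/
def Regular (n : ℕ) (X : Type) [MetricSpace X] [MeasurableSpace X] [BorelSpace X] {G : Type}
    [Group G] [MulAction G X] (g : G) : Prop :=
  ∃ T : ℕ → Set X, (∀ i, IsClosed (T i)) ∧ (∀ i, IsTotallyDisconnected (T i) ∨ Tame n X (T i)) ∧
    ∀ x ∈ Reg n X, InfiniteOrbit g x → (∀ i, x ∉ T i) →
      (SobolevNear n (fun x : X => g • x) x ∨ SmallImagesNear n (fun x : X => g • x) x) ∨
        HolderAt n g x

/-- The powers of `g` have compact closure contained in `V`. -/
def SmallPowers {G : Type} [Group G] [TopologicalSpace G] (V : Set G) (g : G) : Prop :=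
  IsCompact (closure (Subgroup.zpowers g : Set G)) ∧ closure (Subgroup.zpowers g : Set G) ⊆ V

/-- The Hilbert-Smith conjecture for actions all of whose small elements have a nonzero power
which is fractionally regular along the infinite orbits, off countably many closed totally
disconnected or tame sets. -/
theorem result :
    ∀ (n : ℕ), 2 ≤ n → ∀ (X : Type) [MetricSpace X] [MeasurableSpace X] [BorelSpace X],
      Dense (Reg n X) → IsPreconnected (Reg n X) →
      ∀ (G : Type) [Group G] [TopologicalSpace G] [IsTopologicalGroup G] [LocallyCompactSpace G]
        [MulAction G X] [ContinuousSMul G X] [FaithfulSMul G X], ∀ V ∈ 𝓝 (1 : G),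
        (∀ g : G, SmallPowers V g → ∃ M : ℤ, M ≠ 0 ∧ Regular n X (g ^ M)) →
        ∃ (m : ℕ) (_ : ChartedSpace (EuclideanSpace ℝ (Fin m)) G),
          LieGroup (modelWithCornersSelf ℝ (EuclideanSpace ℝ (Fin m)))
            ((⊤ : ℕ∞) : WithTop ℕ∞) G := by
  intro n hn X _ _ _ hd hc G _ _ _ _ _ _ _ V hV hreg
  refine Pool.Agent.H78HS.lie_S hn hd hc hV fun g hg => ?_
  obtain ⟨M, hM, T, hT1, hT2, hT3⟩ := hreg g hg
  refine ⟨M, hM, T, hT1, hT2, fun x hx hxI hxT => ?_⟩
  rcases hT3 x hx hxI hxT with (⟨W, hW, s, q, hs, hq, h⟩ | h) | h
  · have hn2 : (2 : ℝ) ≤ n := by exact_mod_cast hn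
    have hs0 : 0 < s := lt_of_le_of_lt (div_nonneg (by linarith) (by linarith)) hs
    have hq0 : 0 < q := by
      by_contra hcon
      have : s * q ≤ 0 := mul_nonpos_of_nonneg_of_nonpos hs0.le (not_lt.1 hcon)
      linarith
    rw [div_lt_iff₀ (by linarith)] at hs
    exact Or.inl (Or.inl ⟨W, hW, s, q, hq0, hq, hs, h⟩)
  · exact Or.inl (Or.inr h)
  · exact Or.inr h

end Pool.Agent.Results.MP_afaf30_gt.FractionalSobolev
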