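import Pool.Agent.H78HS.Some4

/-!
# The Hilbert-Smith conjecture: generic elements of p-adic groups are nowhere regular

Let `n ≥ 2`, let `X` be a Hausdorff space (for example an Alexandrov space of dimension `n`) and
let `Ψ i` be countably many topological charts of `X`, homeomorphisms from open sets of `X` onto
open sets of `ℝⁿ`. Nothing is assumed about the changes of coordinates. Let `G` be a locally
compact group acting continuously on `X` and `V` a neighbourhood of `1`. Suppose that the action
is faithful and the domains of the charts cover a dense connected set, or that the action is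
locally effective in the charts.

If `G` is not a Lie group then there is a `p`-adic subgroup `P = closure ⟨g⟩ ⊆ V`, `g^(p^j) → 1`, with
points of infinite orbit in the charts, such that all elements `s` of `P` outside a meagre set
have the following property: no nonzero power of `s` is regular anywhere along the infinite orbits
of `P`. This means that for any two of the charts and any open set `W` which contains a point of
infinite orbit, the power, read in the charts,

* is not of fractional Sobolev-Hajlasz class `M^{σ,q}` on `W`, if `σ > (n - 1) / (n + 1)` and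
  `σ q > n - 1`,
* is at the points of a residual subset of the closure of the infinite orbits in `W` not Hölder with
  an exponent bigger than `(n - 1) / (n + 1)`, even if it is tested only against the points of
  infinite orbit,
* does not satisfy any of countably many given bounds for the energies of exponent `n + 1` on the
  closure of the infinite orbits in `W`.

Proof (files in `Pool/Agent/H78HS/`). Let `Z` be the closure of the set of the points of infinite
orbit. Baire's theorem on `P` gives a coset `s U` of an open subgroup and a number `M ≠ 0` such that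
the powers `(s k)^M`, `k ∈ U`, have uniformly small energies on `Z ∩ B`, from one chart to another
chart `χ`. In the topological chart `χ ∘ s^M` the group `{k^M}` has averages with small energies.
Hence for almost all `y` almost all level sets, on the fibre of the average over `y` in `Z`, of a
countable separating family of averaged functions are totally disconnected. On such a fibre local
eigenfunctions of a generator can be glued to a function without zeros: the quotient of two
eigenfunctions is an invariant function without zeros on a totally disconnected set and has an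
invariant logarithm. This contradicts the circle criterion of the starting library
(`CircleFibres`), unless an open subgroup acts trivially near a point of `Z`, which is impossible.
So the elements have no points of infinite orbit in the charts; the rest follows from Newman's
theorem as in the starting library.
-/

set_option autoImplicit false

namespace Pool.Agent.Results.MP_afaf30_gt.GenericElements

open MeasureTheory Set Metric Filter Topology
open scoped ENNReal

/-- The set of the points of infinite orbit: no positive power of `g` fixes the point. -/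
def InfiniteOrbits {G : Type} (X : Type) [Monoid G] [MulAction G X] (g : G) : Set X :=
  {x | ∀ m : ℕ, 0 < m → g ^ m • x ≠ x}

/-- The map `f` is on `O` of fractional Sobolev class `M^{s,q}` in the form of Hajlasz, for some
`s > (n - 1) / (n + 1)` and some `q` with `s q > n - 1`. -/
def FractionalSobolev {n : ℕ} (O : Set (EuclideanSpace ℝ (Fin n)))
    (f : EuclideanSpace ℝ (Fin n) → EuclideanSpace ℝ (Fin n)) : Prop :=
  ∃ s q : ℝ, ((n : ℝ) - 1) / (n + 1) < s ∧ (n : ℝ) - 1 < s * q ∧
    ∃ h : EuclideanSpace ℝ (Fin n) → ℝ≥0∞, Measurable h ∧
      (∀ v ∈ O, ∀ w ∈ O, edist (f v) (f w) ≤ edist v w ^ s * (h v + h w)) ∧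
      ∫⁻ v in O, h v ^ q < ∞

/-- The map `f` is Hölder at the point `v` with some exponent `α > (n - 1) / (n + 1)`, tested against
the points of `D`: `d(fw, fv) ≤ C d(w, v)^α` for the points `w` of `D` with `d(w, v) < δ`. -/
def HolderAt {n : ℕ} (D : Set (EuclideanSpace ℝ (Fin n)))
    (f : EuclideanSpace ℝ (Fin n) → EuclideanSpace ℝ (Fin n)) (v : EuclideanSpace ℝ (Fin n)) :
    Prop :=
  ∃ α C δ : ℝ, ((n : ℝ) - 1) / (n + 1) < α ∧ 0 < δ ∧
    ∀ w ∈ D, dist w v < δ → dist (f w) (f v) ≤ C * dist w v ^ α

/-- The energy of `f` on `O` at the scale `r` is at most `b`: the sum of `|f(x_a) - f(y_a)|^(n + 1)`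
over an `r`-separated set of points `a` of `O` is at most `b`, for all points `x_a`, `y_a` of `O` at
distance at most `r` from `a`. -/
def Energy {n : ℕ} (O : Set (EuclideanSpace ℝ (Fin n))) (r b : ℝ)
    (f : EuclideanSpace ℝ (Fin n) → EuclideanSpace ℝ (Fin n)) : Prop :=
  ∀ (A : Finset (EuclideanSpace ℝ (Fin n)))
    (x y : EuclideanSpace ℝ (Fin n) → EuclideanSpace ℝ (Fin n)),
    (∀ a ∈ A, a ∈ O ∧ x a ∈ O ∧ y a ∈ O ∧ dist (x a) a ≤ r ∧ dist (y a) a ≤ r) →
    (∀ a ∈ A, ∀ a' ∈ A, a ≠ a' → r ≤ dist a a') → ∑ a ∈ A, dist (f (x a)) (f (y a)) ^ (n + 1) ≤ b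

/-- The part of `B` in the closure of `I`, read in the chart `ψ`. -/
def Along {n : ℕ} {X : Type} [TopologicalSpace X]
    (ψ : OpenPartialHomeomorph X (EuclideanSpace ℝ (Fin n))) (I : Set X)
    (B : Set (EuclideanSpace ℝ (Fin n))) : Set (EuclideanSpace ℝ (Fin n)) :=
  {v | v ∈ B ∧ ψ.symm v ∈ closure I}

/-- The homeomorphism `h` is regular somewhere along `I`: for two of the charts and an open set `W`
which contains a point of `I` it is, read in the charts, of fractional Sobolev class on `W`, or
Hölder as above, tested against the points of `I`, at all points of a subset of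
`W ∩ closure I` which is not meagre in this set, or one of the given sequences of bounds `b k` for
the energies at the scales `r k` holds on `W ∩ closure I` from some index on. -/
def RegularSomewhere {n : ℕ} {X : Type} [TopologicalSpace X]
    (Ψ : ℕ → OpenPartialHomeomorph X (EuclideanSpace ℝ (Fin n))) (r b : ℕ → ℕ → ℝ) (I : Set X)
    {G : Type} [SMul G X] (h : G) : Prop :=
  ∃ (i i' : ℕ) (W : Set X), IsOpen W ∧ (∃ x ∈ W, x ∈ I) ∧ W ⊆ (Ψ i).source ∧
    (∀ x ∈ W, h • x ∈ (Ψ i').source) ∧
    (FractionalSobolev (Ψ i '' W) (fun v => Ψ i' (h • (Ψ i).symm v)) ∨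
      (¬ IsMeagre {v : Along (Ψ i) I (Ψ i '' W) |
        HolderAt (Ψ i '' (W ∩ I)) (fun v => Ψ i' (h • (Ψ i).symm v)) v}) ∨
      ∃ k m : ℕ, ∀ j, m ≤ j → Energy (Along (Ψ i) I (Ψ i '' W)) (r k j) (b k j)
        (fun v => Ψ i' (h • (Ψ i).symm v)))

/-- The powers of `g` have compact closure contained in `V`. -/
def SmallPowers {G : Type} [Group G] [TopologicalSpace G] (V : Set G) (g : G) : Prop :=
  IsCompact (closure (Subgroup.zpowers g : Set G)) ∧ closure (Subgroup.zpowers g : Set G) ⊆ V

/-- The action is faithful and the domains of the charts cover a dense connected set, or there is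
a nonempty chart, and no `g ≠ 1` with powers in `V` fixes all points of a nonempty open subset of a
chart. -/
def Effective {n : ℕ} {X : Type} [TopologicalSpace X]
    (Ψ : ℕ → OpenPartialHomeomorph X (EuclideanSpace ℝ (Fin n))) {G : Type} [Group G]
    [TopologicalSpace G] [MulAction G X] (V : Set G) : Prop :=
  (FaithfulSMul G X ∧ Dense (⋃ k, (Ψ k).source) ∧ IsPreconnected (⋃ k, (Ψ k).source)) ∨
    ((∃ i, (Ψ i).source.Nonempty) ∧ ∀ g, SmallPowers V g → ∀ (i : ℕ) (W : Set X), IsOpen W →
      W.Nonempty → W ⊆ (Ψ i).source → (∀ x ∈ W, g • x = x) → g = 1)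

/-- If in every small `p`-adic subgroup with infinite orbits in the charts the set of the elements
which have a nonzero power that is regular somewhere along the infinite orbits is not meagre,
then the group is a Lie group. -/
theorem result :
    ∀ (n : ℕ), 2 ≤ n → ∀ (X : Type) [TopologicalSpace X] [T2Space X]
      (Ψ : ℕ → OpenPartialHomeomorph X (EuclideanSpace ℝ (Fin n)))
      (G : Type) [Group G] [TopologicalSpace G] [IsTopologicalGroup G] [LocallyCompactSpace G]
      [T2Space G] [MulAction G X] [ContinuousSMul G X], ∀ V ∈ 𝓝 (1 : G), Effective Ψ V →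
      ∀ r b : ℕ → ℕ → ℝ, (∀ k j, 0 < r k j) →
        (∀ k, Tendsto (fun j => r k j * b k j) atTop (𝓝 0)) →
      (∀ (p : ℕ) (g : G), p.Prime → SmallPowers V g →
        Tendsto (fun j : ℕ => g ^ p ^ j) atTop (𝓝 1) →
        (∃ i, ∃ x ∈ (Ψ i).source, x ∈ InfiniteOrbits X g) →
        ¬ IsMeagre {s : (Subgroup.zpowers g).topologicalClosure | ∃ M : ℤ, M ≠ 0 ∧
          RegularSomewhere Ψ r b (InfiniteOrbits X g) ((s : G) ^ M)}) →
      ∃ (m : ℕ) (_ : ChartedSpace (EuclideanSpace ℝ (Fin m)) G),
        LieGroup (modelWithCornersSelf ℝ (EuclideanSpace ℝ (Fin m)))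
          ((⊤ : ℕ∞) : WithTop ℕ∞) G := by
  intro n hn X _ _ Ψ G _ _ _ _ _ _ _ V hV hL r b hr hrb hreg
  refine Pool.Agent.H78HS.lie_generic hn Ψ hV hL hr hrb ?_
  intro p g hp hg hgp hgx
  obtain ⟨x, hx, hxI⟩ := hgx
  obtain ⟨i, hi⟩ := mem_iUnion.1 hx
  exact hreg p g hp hg hgp ⟨i, x, hi, hxI⟩

end Pool.Agent.Results.MP_afaf30_gt.GenericElements
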